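import Pool.Agent.L5helper98.ID.Defs

set_option autoImplicit false

open MeasureTheory ProbabilityTheory Filter Topology Set
open scoped ENNReal BoundedContinuousFunction

namespace Pool.Agent.L5helper12.ID

open Pool.Agent.L5helper98.ID

lemma per_exp (c : ℝ) : Function.Periodic (fun y : ℝ => Real.exp (c * Real.cos y)) (2 * Real.pi) := by
  intro y
  simp only [Real.cos_add_two_pi]

lemma shift_int (c x : ℝ) : ∫ y in (-Real.pi)..Real.pi, Real.exp (c * Real.cos (y + x)) =
    ∫ y in (-Real.pi)..Real.pi, Real.exp (c * Real.cos y) := by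
  rw [intervalIntegral.integral_comp_add_right (fun y => Real.exp (c * Real.cos y)) x]
  have h := (per_exp c).intervalIntegral_add_eq (-Real.pi + x) (-Real.pi)
  have e1 : -Real.pi + x + 2 * Real.pi = Real.pi + x := by ring
  have e2 : -Real.pi + 2 * Real.pi = Real.pi := by ring
  rw [e1, e2] at h
  exact h

lemma cont_exp (c x : ℝ) : Continuous (fun y : ℝ => Real.exp (c * Real.cos (y + x))) := by
  fun_prop

lemma cosh_int (c : ℝ) : ∫ y in (-Real.pi)..Real.pi, Real.exp (c * Real.cos y) =
    ∫ y in (-Real.pi)..Real.pi, Real.cosh (c * Real.cos y) := by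
  have h1 := shift_int c Real.pi
  simp only [Real.cos_add_pi] at h1
  have h2 : ∫ y in (-Real.pi)..Real.pi, Real.cosh (c * Real.cos y) =
      (1 / 2) * ((∫ y in (-Real.pi)..Real.pi, Real.exp (c * Real.cos y)) +
        ∫ y in (-Real.pi)..Real.pi, Real.exp (c * -Real.cos y)) := by
    rw [← intervalIntegral.integral_add, ← intervalIntegral.integral_const_mul]
    · refine intervalIntegral.integral_congr fun y _ => ?_
      show Real.cosh (c * Real.cos y) =
        1 / 2 * (Real.exp (c * Real.cos y) + Real.exp (c * -Real.cos y))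
      rw [Real.cosh_eq, mul_neg]
      ring
    · exact (by fun_prop : Continuous fun y : ℝ => Real.exp (c * Real.cos y)).intervalIntegrable _ _
    · exact (by fun_prop : Continuous fun y : ℝ => Real.exp (c * -Real.cos y)).intervalIntegrable _ _
  rw [h2, h1]
  ring

lemma I_eq (κ : ℝ) : I κ = ∫ y in (-Real.pi)..Real.pi, Real.exp (κ * Real.cos y) := by
  unfold I
  rw [intervalIntegral.integral_of_le (by linarith [Real.pi_pos]), integral_Ioc_eq_integral_Ioo]

theorem PER_holds : St_PER := by
  intro c κ hc x
  have hκ : 0 ≤ κ := (abs_nonneg c).trans hc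
  have hpi := Real.pi_pos
  have hint : IntegrableOn (fun y : ℝ => Real.exp (c * Real.cos (x - y))) D := by
    unfold D
    have hcont : Continuous (fun y : ℝ => Real.exp (c * Real.cos (x - y))) := by fun_prop
    exact (hcont.integrableOn_Icc (a := -Real.pi) (b := Real.pi)).mono_set Ioo_subset_Icc_self
  have e0 : ∫⁻ y in D, ee (fun t => c * Real.cos t) x y =
      ENNReal.ofReal (∫ y in D, Real.exp (c * Real.cos (x - y))) := by
    unfold ee
    rw [ofReal_integral_eq_lintegral_ofReal hint (ae_of_all _ fun y => (Real.exp_pos _).le)]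
  rw [e0]
  refine ENNReal.ofReal_le_ofReal ?_
  have e1 : ∫ y in D, Real.exp (c * Real.cos (x - y)) =
      ∫ y in (-Real.pi)..Real.pi, Real.exp (c * Real.cos (y + -x)) := by
    unfold D
    rw [intervalIntegral.integral_of_le (by linarith), integral_Ioc_eq_integral_Ioo]
    refine integral_congr_ae (ae_of_all _ fun y => ?_)
    show Real.exp (c * Real.cos (x - y)) = Real.exp (c * Real.cos (y + -x))
    rw [show x - y = -(y + -x) by ring, Real.cos_neg]
  rw [e1, shift_int, cosh_int, I_eq, cosh_int]
  refine intervalIntegral.integral_mono_on (by linarith) ?_ ?_ ?_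
  · exact (by fun_prop : Continuous fun y : ℝ => Real.cosh (c * Real.cos y)).intervalIntegrable _ _
  · exact (by fun_prop : Continuous fun y : ℝ => Real.cosh (κ * Real.cos y)).intervalIntegrable _ _
  · intro y _
    rw [Real.cosh_le_cosh, abs_mul, abs_mul, abs_of_nonneg hκ]
    exact mul_le_mul_of_nonneg_right hc (abs_nonneg _)

end Pool.Agent.L5helper12.ID
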